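import Pool.Agent.R433.AT.Cs

/-! The matrix inequality for finitely many bounded functions of mean square one and finitely many
characters with heights. -/

set_option autoImplicit false

namespace Pool.Agent.R433.AT

open Complex Filter Topology ComplexConjugate NumberField IsDedekindDomain
  Pool.Agent.W401.Cheb Pool.Agent.W540.BE Pool.Agent.W353.L1
open Pool.Agent.H341R2 (lam lam_tendsto)
open Pool.Agent.Y722.EP (log_ratio)

section
variable {F : Type} [Field F] [NumberField F]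
  (U : Subgroup (GK F)) [U.Normal] [Finite (GK F ⧸ U)] {κ : Type*} [Fintype κ] {n : κ → ℕ}
    (ρ : ∀ k, Representation ℂ (GK F) (Fin (n k) → ℂ)) (hρ : ∀ k, ∀ u ∈ U, ρ k u = 1)
  {ι : Type*} [Fintype ι] {R : ι → HeightOneSpectrum (𝓞 F) → ℝ}

/-- the mean square of nonnegative combinations -/
def MeanOne (R : ι → HeightOneSpectrum (𝓞 F) → ℝ) : Prop :=
  (∀ i v, |R i v| ≤ 2) ∧ ∀ B : ℝ, ∃ C : ℝ, ∀ᶠ ε : ℝ in 𝓝[>] 0, ∀ c : ι → ℝ,
    (∀ i, 0 ≤ c i ∧ c i ≤ B) →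
    (EP (nm F) ε fun v => (∑ i, c i * R i v) ^ 2) ≤ (∑ i, c i ^ 2) * Real.log (1 / ε) + C

variable (hR : MeanOne R) (hU : IsOpen (U : Set (GK F))) (τ : κ → ℝ)
    (σ : HeightOneSpectrum (𝓞 F) → GK F) (hσ : ∀ v, IsFrob v (σ v))
    {x : ι → κ → ℝ → ℝ}
    (hx : ∀ i k, Tendsto (fun ε : ℝ => (EP (nm F) ε fun v => R i v * RR (ρ k) (τ k) σ v) / lam ε -
      x i k ε) (𝓝[>] 0) (𝓝 0))

include hR hU hσ hx in
/-- **The matrix inequality.** -/
theorem matrix_ineq {C η : ℝ} (hη : 0 < η) :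
    ∀ᶠ ε : ℝ in 𝓝[>] 0, ∀ (c : ι → ℝ) (d : κ → ℝ), (∀ i, 0 ≤ c i ∧ c i ≤ C) →
      (∀ k, |d k| ≤ C) → (∑ i, ∑ k, c i * d k * x i k ε) ^ 2 ≤
        (∑ i, c i ^ 2) * (∑ k, ∑ l, d k * d l * gr U ρ hρ τ k l) + η := by
  classical
  have hN : NormSys (nm F) := normSys
  obtain ⟨C0, hC0⟩ := hR.2 C
  set u : ℝ → ℝ := fun ε => Real.log (1 / ε) / lam ε with hu
  set X : ι → κ → ℝ → ℝ := fun i k ε =>
    (EP (nm F) ε fun v => R i v * RR (ρ k) (τ k) σ v) / lam ε with hX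
  set G : κ → κ → ℝ → ℝ := fun k l ε =>
    (EP (nm F) ε fun v => RR (ρ k) (τ k) σ v * RR (ρ l) (τ l) σ v) / lam ε with hG
  set e1 : ℝ → ℝ := fun ε => ∑ i, ∑ k, |X i k ε - x i k ε| with he1
  set e2 : ℝ → ℝ := fun ε => |u ε - 1| with he2
  set e3 : ℝ → ℝ := fun ε => |C0| / lam ε with he3
  set e4 : ℝ → ℝ := fun ε => ∑ k, ∑ l, |G k l ε - gr U ρ hρ τ k l| with he4
  have t1 : Tendsto e1 (𝓝[>] 0) (𝓝 0) := by
    have := tendsto_finsetSum (Finset.univ : Finset ι) fun i _ =>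
      tendsto_finsetSum (Finset.univ : Finset κ) fun k _ => (hx i k).abs
    simpa using this
  have t2 : Tendsto e2 (𝓝[>] 0) (𝓝 0) := by
    have := (log_ratio.sub_const 1).abs
    rw [sub_self, abs_zero] at this
    exact this
  have t3 : Tendsto e3 (𝓝[>] 0) (𝓝 0) := tendsto_const_nhds.div_atTop lam_tendsto
  have t4 : Tendsto e4 (𝓝[>] 0) (𝓝 0) := by
    have := tendsto_finsetSum (Finset.univ : Finset κ) fun k _ =>
      tendsto_finsetSum (Finset.univ : Finset κ) fun l _ =>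
        ((gr_lim U ρ hρ hU τ σ hσ k l).sub_const (gr U ρ hρ τ k l)).abs
    simpa using this
  set Γ : ℝ := ∑ k, ∑ l, |gr U ρ hρ τ k l| with hΓ
  have hΓ0 : 0 ≤ Γ := by positivity
  set nι : ℝ := (Fintype.card ι : ℝ) with hnι
  have hnι0 : 0 ≤ nι := Nat.cast_nonneg _
  -- the error
  set E : ℝ × ℝ × ℝ × ℝ → ℝ := fun p =>
    (nι * C ^ 2) * (C ^ 2 * p.2.2.2) + (nι * C ^ 2 * p.2.1 + p.2.2.1) * (C ^ 2 * Γ + C ^ 2 * p.2.2.2)
      + (C ^ 2 * p.1) * ((nι * C ^ 2) * (C ^ 2 * Γ) + ((nι * C ^ 2) * (C ^ 2 * p.2.2.2) +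
        (nι * C ^ 2 * p.2.1 + p.2.2.1) * (C ^ 2 * Γ + C ^ 2 * p.2.2.2)))
      + (C ^ 2 * p.1) + (C ^ 2 * p.1) ^ 2 with hE
  have hEc : Continuous E := by
    rw [hE]
    fun_prop
  have hE0 : E (0, 0, 0, 0) = 0 := by
    rw [hE]
    simp
  have tE : Tendsto (fun ε => E (e1 ε, e2 ε, e3 ε, e4 ε)) (𝓝[>] 0) (𝓝 0) := by
    have h1 : Tendsto (fun ε => (e1 ε, e2 ε, e3 ε, e4 ε)) (𝓝[>] 0) (𝓝 (0, 0, 0, 0)) :=
      t1.prodMk_nhds (t2.prodMk_nhds (t3.prodMk_nhds t4))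
    have h2 := (hEc.tendsto (0, 0, 0, 0)).comp h1
    rw [hE0] at h2
    exact h2
  filter_upwards [hC0, tE.eventually (gt_mem_nhds hη), lam_tendsto.eventually_gt_atTop 0,
    self_mem_nhdsWithin] with ε h1 h2 h3 h4 c d hc hd
  have hε : (0 : ℝ) < ε := h4
  have hRb : ∀ i v, |R i v| ≤ 2 := hR.1
  have hn : ∀ k v, |RR (ρ k) (τ k) σ v| ≤ n k := fun k v => abs_RR_le U (ρ k) (hρ k) _ _ _
  have hcb : ∀ i, |c i| ≤ |C| := fun i => by
    rw [abs_of_nonneg (hc i).1]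
    exact (hc i).2.trans (le_abs_self C)
  have hdb : ∀ k, |d k| ≤ |C| := fun k => (hd k).trans (le_abs_self C)
  have hcd : ∀ i k, |c i * d k| ≤ C ^ 2 := fun i k => by
    rw [abs_mul, ← sq_abs C, sq]
    exact mul_le_mul (hcb i) (hdb k) (abs_nonneg _) (abs_nonneg _)
  have hdd : ∀ k l, |d k * d l| ≤ C ^ 2 := fun k l => by
    rw [abs_mul, ← sq_abs C, sq]
    exact mul_le_mul (hdb k) (hdb l) (abs_nonneg _) (abs_nonneg _)
  -- the functions
  set f : HeightOneSpectrum (𝓞 F) → ℝ := fun v => ∑ i, c i * R i v with hf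
  set g : HeightOneSpectrum (𝓞 F) → ℝ := fun v => ∑ k, d k * RR (ρ k) (τ k) σ v with hg
  have hfb : ∀ v, |f v| ≤ ∑ _i : ι, |C| * 2 := fun v => by
    refine (Finset.abs_sum_le_sum_abs _ _).trans (Finset.sum_le_sum fun i _ => ?_)
    rw [abs_mul]
    exact mul_le_mul (hcb i) (hRb i v) (abs_nonneg _) (abs_nonneg _)
  have hgb : ∀ v, |g v| ≤ ∑ k : κ, |C| * n k := fun v => by
    refine (Finset.abs_sum_le_sum_abs _ _).trans (Finset.sum_le_sum fun k _ => ?_)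
    rw [abs_mul]
    exact mul_le_mul (hdb k) (hn k v) (abs_nonneg _) (abs_nonneg _)
  have hcs := EP_cauchy hN hfb hgb hε
  -- the three sums
  have s1 : (∑ i, ∑ k, c i * d k * X i k ε) * lam ε = EP (nm F) ε fun v => f v * g v := by
    have b1 : ∀ i k v, |c i * d k * (R i v * RR (ρ k) (τ k) σ v)| ≤ C ^ 2 * (2 * n k) := by
      intro i k v
      rw [abs_mul]
      refine mul_le_mul (hcd i k) ?_ (abs_nonneg _) (sq_nonneg _)
      rw [abs_mul]
      exact mul_le_mul (hRb i v) (hn k v) (abs_nonneg _) (by norm_num)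
    have e5 : (fun v => f v * g v) = fun v => ∑ i, ∑ k, c i * d k * (R i v * RR (ρ k) (τ k) σ v) := by
      funext v
      rw [hf, hg]
      simp only
      rw [Finset.sum_mul_sum]
      exact Finset.sum_congr rfl fun i _ => Finset.sum_congr rfl fun k _ => by ring
    rw [e5, EP_sum hN hε Finset.univ (fun i v => ∑ k, c i * d k * (R i v * RR (ρ k) (τ k) σ v))
      (fun _ => ∑ k, C ^ 2 * (2 * n k)) (fun i _ v => (Finset.abs_sum_le_sum_abs _ _).trans
        (Finset.sum_le_sum fun k _ => b1 i k v)), Finset.sum_mul]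
    refine Finset.sum_congr rfl fun i _ => ?_
    rw [EP_sum hN hε Finset.univ (fun k v => c i * d k * (R i v * RR (ρ k) (τ k) σ v))
      (fun k => C ^ 2 * (2 * n k)) (fun k _ v => b1 i k v), Finset.sum_mul]
    refine Finset.sum_congr rfl fun k _ => ?_
    rw [EP_const_mul, hX]
    simp only
    rw [mul_assoc, div_mul_cancel₀ _ h3.ne']
  have s2 : (∑ k, ∑ l, d k * d l * G k l ε) * lam ε = EP (nm F) ε fun v => g v ^ 2 := by
    have b1 : ∀ k l v, |d k * d l * (RR (ρ k) (τ k) σ v * RR (ρ l) (τ l) σ v)| ≤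
        C ^ 2 * ((n k : ℝ) * n l) := by
      intro k l v
      rw [abs_mul]
      refine mul_le_mul (hdd k l) ?_ (abs_nonneg _) (sq_nonneg _)
      rw [abs_mul]
      exact mul_le_mul (hn k v) (hn l v) (abs_nonneg _) (Nat.cast_nonneg _)
    have e5 : (fun v => g v ^ 2) = fun v => ∑ k, ∑ l, d k * d l *
        (RR (ρ k) (τ k) σ v * RR (ρ l) (τ l) σ v) := by
      funext v
      rw [hg]
      simp only
      rw [sq, Finset.sum_mul_sum]
      exact Finset.sum_congr rfl fun i _ => Finset.sum_congr rfl fun k _ => by ring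
    rw [e5, EP_sum hN hε Finset.univ (fun k v => ∑ l, d k * d l *
        (RR (ρ k) (τ k) σ v * RR (ρ l) (τ l) σ v))
      (fun k => ∑ l, C ^ 2 * ((n k : ℝ) * n l)) (fun k _ v => (Finset.abs_sum_le_sum_abs _ _).trans
        (Finset.sum_le_sum fun l _ => b1 k l v)), Finset.sum_mul]
    refine Finset.sum_congr rfl fun k _ => ?_
    rw [EP_sum hN hε Finset.univ (fun l v => d k * d l * (RR (ρ k) (τ k) σ v *
      RR (ρ l) (τ l) σ v)) (fun l => C ^ 2 * ((n k : ℝ) * n l)) (fun l _ v => b1 k l v),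
      Finset.sum_mul]
    refine Finset.sum_congr rfl fun l _ => ?_
    rw [EP_const_mul, hG]
    simp only
    rw [mul_assoc, div_mul_cancel₀ _ h3.ne']
  set S := ∑ i, ∑ k, c i * d k * x i k ε with hS
  set S' := ∑ i, ∑ k, c i * d k * X i k ε with hS'
  set P0 := ∑ i, c i ^ 2 with hP0
  set Q := ∑ k, ∑ l, d k * d l * G k l ε with hQ
  set Q0 := ∑ k, ∑ l, d k * d l * gr U ρ hρ τ k l with hQ0
  set Pv := (EP (nm F) ε fun v => f v ^ 2) / lam ε with hPv
  have hCS : S' ^ 2 ≤ Pv * Q := by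
    rw [← s1, ← s2] at hcs
    have h5 : S' ^ 2 * lam ε ≤ (EP (nm F) ε fun v => f v ^ 2) * Q := by
      have h6 : (S' ^ 2 * lam ε) * lam ε ≤ ((EP (nm F) ε fun v => f v ^ 2) * Q) * lam ε := by
        calc (S' ^ 2 * lam ε) * lam ε = (S' * lam ε) ^ 2 := by ring
          _ ≤ _ := hcs
          _ = _ := by ring
      exact le_of_mul_le_mul_right h6 h3
    rw [hPv, div_mul_eq_mul_div, le_div_iff₀ h3]
    exact h5
  have hP00 : 0 ≤ P0 := Finset.sum_nonneg fun i _ => sq_nonneg _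
  have hP0le : P0 ≤ nι * C ^ 2 := by
    rw [hP0]
    refine (Finset.sum_le_card_nsmul _ _ (C ^ 2) fun i _ => ?_).trans (le_of_eq ?_)
    · rw [← sq_abs (c i), ← sq_abs C]
      exact pow_le_pow_left₀ (abs_nonneg _) (hcb i) 2
    · rw [nsmul_eq_mul, Finset.card_univ]
  have hPv0 : 0 ≤ Pv := div_nonneg (EP_nonneg fun v => sq_nonneg _) h3.le
  have hQp : 0 ≤ Q := by
    have h5 : 0 ≤ EP (nm F) ε fun v => g v ^ 2 := EP_nonneg fun v => sq_nonneg _
    rw [← s2] at h5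
    exact nonneg_of_mul_nonneg_left h5 h3
  have he20 : 0 ≤ e2 ε := abs_nonneg _
  have he30 : 0 ≤ e3 ε := div_nonneg (abs_nonneg _) h3.le
  have he40 : 0 ≤ e4 ε := Finset.sum_nonneg fun k _ => Finset.sum_nonneg fun l _ => abs_nonneg _
  have he10 : 0 ≤ e1 ε := Finset.sum_nonneg fun k _ => Finset.sum_nonneg fun l _ => abs_nonneg _
  have hPle : Pv ≤ P0 + (nι * C ^ 2 * e2 ε + e3 ε) := by
    have h5 := h1 c hc
    have h6 : Pv ≤ (P0 * Real.log (1 / ε) + C0) / lam ε :=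
      div_le_div_of_nonneg_right h5 h3.le
    have h7 : (P0 * Real.log (1 / ε) + C0) / lam ε = P0 * u ε + C0 / lam ε := by
      rw [hu]
      ring
    have h8 : C0 / lam ε ≤ e3 ε := div_le_div_of_nonneg_right (le_abs_self _) h3.le
    have h9 : u ε ≤ 1 + e2 ε := by
      have := le_abs_self (u ε - 1)
      rw [he2]
      simp only
      linarith
    have h10 : P0 * u ε ≤ P0 * (1 + e2 ε) := mul_le_mul_of_nonneg_left h9 hP00
    have h11 : P0 * e2 ε ≤ nι * C ^ 2 * e2 ε := mul_le_mul_of_nonneg_right hP0le he20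
    rw [h7] at h6
    linarith
  have hQle : Q ≤ Q0 + C ^ 2 * e4 ε := by
    have h5 : Q - Q0 ≤ C ^ 2 * e4 ε := by
      rw [hQ, hQ0, ← Finset.sum_sub_distrib, he4]
      simp only
      rw [Finset.mul_sum]
      refine Finset.sum_le_sum fun k _ => ?_
      rw [← Finset.sum_sub_distrib, Finset.mul_sum]
      refine Finset.sum_le_sum fun l _ => ?_
      rw [← mul_sub]
      refine (le_abs_self _).trans ?_
      rw [abs_mul]
      exact mul_le_mul_of_nonneg_right (hdd k l) (abs_nonneg _)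
    linarith
  have hQ0le : Q0 ≤ C ^ 2 * Γ := by
    rw [hQ0, hΓ, Finset.mul_sum]
    refine Finset.sum_le_sum fun k _ => ?_
    rw [Finset.mul_sum]
    refine Finset.sum_le_sum fun l _ => ?_
    refine (le_abs_self _).trans ?_
    rw [abs_mul]
    exact mul_le_mul_of_nonneg_right (hdd k l) (abs_nonneg _)
  have hSS : |S| ≤ |S'| + C ^ 2 * e1 ε := by
    have h5 : |S' - S| ≤ C ^ 2 * e1 ε := by
      rw [hS, hS', ← Finset.sum_sub_distrib, he1]
      simp only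
      rw [Finset.mul_sum]
      refine (Finset.abs_sum_le_sum_abs _ _).trans (Finset.sum_le_sum fun i _ => ?_)
      rw [← Finset.sum_sub_distrib, Finset.mul_sum]
      refine (Finset.abs_sum_le_sum_abs _ _).trans (Finset.sum_le_sum fun k _ => ?_)
      rw [← mul_sub, abs_mul]
      exact mul_le_mul_of_nonneg_right (hcd i k) (abs_nonneg _)
    have h6 : S = S' - (S' - S) := by ring
    calc |S| = |S' - (S' - S)| := by rw [← h6]
      _ ≤ |S'| + |S' - S| := abs_sub _ _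
      _ ≤ _ := by linarith
  set δ := C ^ 2 * e1 ε with hδ
  have hδ0 : 0 ≤ δ := by positivity
  have hS2 : S ^ 2 ≤ S' ^ 2 + δ * (1 + S' ^ 2) + δ ^ 2 := by
    have h5 : S ^ 2 ≤ (|S'| + δ) ^ 2 := by
      rw [← sq_abs S]
      exact pow_le_pow_left₀ (abs_nonneg _) hSS 2
    have h6 : 2 * |S'| ≤ 1 + S' ^ 2 := by
      have h6 := sq_nonneg (|S'| - 1)
      rw [← sq_abs S']
      have h7 : (|S'| - 1) ^ 2 = |S'| ^ 2 - 2 * |S'| + 1 := by ring
      linarith
    have h7 : 2 * |S'| * δ ≤ (1 + S' ^ 2) * δ := mul_le_mul_of_nonneg_right h6 hδ0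
    have h8 : |S'| ^ 2 = S' ^ 2 := sq_abs S'
    have h9 : (|S'| + δ) ^ 2 = |S'| ^ 2 + 2 * |S'| * δ + δ ^ 2 := by ring
    have h10 : (1 + S' ^ 2) * δ = δ * (1 + S' ^ 2) := by ring
    linarith
  set A := nι * C ^ 2 with hA
  have hA0 : 0 ≤ A := by positivity
  set p := A * e2 ε + e3 ε with hp
  have hp0 : 0 ≤ p := by positivity
  set q := C ^ 2 * e4 ε with hq
  have hq0 : 0 ≤ q := by positivity
  have hPQ : Pv * Q ≤ P0 * Q0 + (A * q + p * (C ^ 2 * Γ + q)) := by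
    have h5 : Pv * Q ≤ (P0 + p) * (Q0 + q) :=
      mul_le_mul hPle hQle hQp (hPv0.trans hPle)
    have h6 : P0 * q ≤ A * q := mul_le_mul_of_nonneg_right hP0le hq0
    have h7 : p * Q0 ≤ p * (C ^ 2 * Γ) := mul_le_mul_of_nonneg_left hQ0le hp0
    have h8 : (P0 + p) * (Q0 + q) = P0 * Q0 + P0 * q + p * Q0 + p * q := by ring
    have h9 : p * (C ^ 2 * Γ + q) = p * (C ^ 2 * Γ) + p * q := by ring
    linarith
  have hP0Q0 : P0 * Q0 ≤ A * (C ^ 2 * Γ) := by
    refine (mul_le_mul_of_nonneg_left hQ0le hP00).trans ?_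
    exact mul_le_mul_of_nonneg_right hP0le (by positivity)
  have hfin : S ^ 2 ≤ P0 * Q0 + E (e1 ε, e2 ε, e3 ε, e4 ε) := by
    have e6 : E (e1 ε, e2 ε, e3 ε, e4 ε) = A * q + p * (C ^ 2 * Γ + q) +
        δ * (A * (C ^ 2 * Γ) + (A * q + p * (C ^ 2 * Γ + q))) + δ + δ ^ 2 := by
      rw [hE]
    rw [e6]
    have h5 : S' ^ 2 ≤ P0 * Q0 + (A * q + p * (C ^ 2 * Γ + q)) := hCS.trans hPQ
    have h6 : δ * S' ^ 2 ≤ δ * (A * (C ^ 2 * Γ) + (A * q + p * (C ^ 2 * Γ + q))) := by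
      refine mul_le_mul_of_nonneg_left ?_ hδ0
      linarith
    have h7 : δ * (1 + S' ^ 2) = δ + δ * S' ^ 2 := by ring
    linarith
  linarith

end

end Pool.Agent.R433.AT
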