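import Pool.Agent.W353.L1.Final
import Pool.Agent.Y722.EP.Bes

/-! Cauchy's inequality for weighted sums over primes and second moments of characters with
heights. -/

set_option autoImplicit false

namespace Pool.Agent.R433.AT

open Complex Filter Topology ComplexConjugate NumberField IsDedekindDomain
  Pool.Agent.W401.Cheb Pool.Agent.W540.BE Pool.Agent.W353.L1
open Pool.Agent.H341R2 (lam lam_tendsto)

section
variable {P : Type*} {N : P → ℕ}

/-- Cauchy's inequality -/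
theorem EP_cauchy (hN : NormSys N) {f g : P → ℝ} {A B : ℝ} (hf : ∀ v, |f v| ≤ A)
    (hg : ∀ v, |g v| ≤ B) {ε : ℝ} (hε : 0 < ε) :
    (EP N ε fun v => f v * g v) ^ 2 ≤ (EP N ε fun v => f v ^ 2) * EP N ε fun v => g v ^ 2 := by
  have hf2 : ∀ v, |f v ^ 2| ≤ A ^ 2 := fun v => by
    rw [abs_pow]; exact pow_le_pow_left₀ (abs_nonneg _) (hf v) 2
  have hg2 : ∀ v, |g v ^ 2| ≤ B ^ 2 := fun v => by
    rw [abs_pow]; exact pow_le_pow_left₀ (abs_nonneg _) (hg v) 2
  have hfg : ∀ v, |f v * g v| ≤ A * B := fun v => by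
    rw [abs_mul]
    exact mul_le_mul (hf v) (hg v) (abs_nonneg _) ((abs_nonneg _).trans (hf v))
  have key : ∀ t : ℝ, 0 ≤ (EP N ε fun v => f v ^ 2) * (t * t) +
      (2 * EP N ε fun v => f v * g v) * t + EP N ε fun v => g v ^ 2 := by
    intro t
    have h1 : 0 ≤ EP N ε fun v => (t * f v + g v) ^ 2 := EP_nonneg fun v => sq_nonneg _
    have e1 : (fun v => (t * f v + g v) ^ 2) =
        fun v => ((t * t) * f v ^ 2 + (2 * t) * (f v * g v)) + g v ^ 2 := by
      funext v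
      ring
    have b1 : ∀ v, |(t * t) * f v ^ 2| ≤ |t * t| * A ^ 2 := fun v => by
      rw [abs_mul]; exact mul_le_mul_of_nonneg_left (hf2 v) (abs_nonneg _)
    have b2 : ∀ v, |(2 * t) * (f v * g v)| ≤ |2 * t| * (A * B) := fun v => by
      rw [abs_mul]; exact mul_le_mul_of_nonneg_left (hfg v) (abs_nonneg _)
    have e2 := EP_add hN hε (φ := fun v => (t * t) * f v ^ 2 + (2 * t) * (f v * g v))
      (ψ := fun v => g v ^ 2) (B := |t * t| * A ^ 2 + |2 * t| * (A * B)) (B' := B ^ 2)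
      (fun v => (abs_add_le _ _).trans (add_le_add (b1 v) (b2 v))) hg2
    have e3 := EP_add hN hε b1 b2
    rw [EP_const_mul, EP_const_mul] at e3
    rw [e1, e2, e3] at h1
    linarith
  have h2 := discrim_le_zero key
  unfold discrim at h2
  nlinarith

end

section
variable {F : Type} [Field F] [NumberField F]

theorem re_mul_re (z w : ℂ) : z.re * w.re = (1 / 2 : ℝ) * ((z * conj w).re + (z * w).re) := by
  rw [Complex.mul_re, Complex.mul_re, Complex.conj_re, Complex.conj_im]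
  ring

theorem zz_mul (τ τ' : ℝ) (v : HeightOneSpectrum (𝓞 F)) : zz τ v * zz τ' v = zz (τ + τ') v := by
  unfold zz
  have h0 : ((nm F v : ℕ) : ℂ) ≠ 0 := by
    have := two_le_nm v
    exact_mod_cast (by omega : nm F v ≠ 0)
  rw [← Complex.cpow_add _ _ h0]
  congr 1
  push_cast
  ring

theorem zz_conj (τ : ℝ) (v : HeightOneSpectrum (𝓞 F)) : conj (zz τ v) = zz (-τ) v := by
  have h1 : zz τ v * zz (-τ) v = 1 := by
    rw [zz_mul, add_neg_cancel]
    unfold zz
    simp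
  have h2 : zz τ v * conj (zz τ v) = 1 := by
    rw [Complex.mul_conj, Complex.normSq_eq_norm_sq, norm_zz]
    norm_num
  have h3 : zz τ v ≠ 0 := fun h => by
    rw [h, zero_mul] at h1
    exact zero_ne_one h1
  exact mul_left_cancel₀ h3 (h2.trans h1.symm)

variable (U : Subgroup (GK F)) [U.Normal] [Finite (GK F ⧸ U)] {κ : Type*} {n : κ → ℕ}
    (ρ : ∀ k, Representation ℂ (GK F) (Fin (n k) → ℂ)) (hρ : ∀ k, ∀ u ∈ U, ρ k u = 1)

open Classical in
/-- the Gram numbers -/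
noncomputable def gr (τ : κ → ℝ) (k l : κ) : ℝ :=
  ((if τ k = τ l then (avC U fun q => (chF U ρ hρ k).f q * conj ((chF U ρ hρ l).f q)).re else 0) +
    (if τ k = -τ l then (avC U fun q => (chF U ρ hρ k).f q * (chF U ρ hρ l).f q).re else 0)) / 2

/-- second moments -/
theorem gr_lim (hU : IsOpen (U : Set (GK F))) (τ : κ → ℝ)
    (σ : HeightOneSpectrum (𝓞 F) → GK F) (hσ : ∀ v, IsFrob v (σ v)) (k l : κ) :
    Tendsto (fun ε : ℝ => (EP (nm F) ε fun v => RR (ρ k) (τ k) σ v * RR (ρ l) (τ l) σ v) / lam ε)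
      (𝓝[>] 0) (𝓝 (gr U ρ hρ τ k l)) := by
  classical
  set A := chF U ρ hρ k with hA
  set B := chF U ρ hρ l with hB
  set ψ₁ : GK F ⧸ U → ℂ := fun q => A.f q * conj (B.f q) with hψ₁
  set ψ₂ : GK F ⧸ U → ℂ := fun q => A.f q * B.f q with hψ₂
  have hc1 : ∀ a g, ψ₁ (g * a * g⁻¹) = ψ₁ a := by
    intro a g
    rw [hψ₁]
    simp only
    rw [A.cls, B.cls]
  have hc2 : ∀ a g, ψ₂ (g * a * g⁻¹) = ψ₂ a := by
    intro a g
    rw [hψ₂]
    simp only
    rw [A.cls, B.cls]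
  have hi1 : ∀ q, ψ₁ q⁻¹ = conj (ψ₁ q) := by
    intro q
    rw [hψ₁]
    simp only
    rw [A.herm, B.herm, map_mul]
  have hi2 : ∀ q, ψ₂ q⁻¹ = conj (ψ₂ q) := by
    intro q
    rw [hψ₂]
    simp only
    rw [A.herm, B.herm, map_mul]
  have h1 := cheb_edge U hU ψ₁ hc1 _ (avC_real U ψ₁ hi1) σ hσ (τ k - τ l)
  have h2 := cheb_edge U hU ψ₂ hc2 _ (avC_real U ψ₂ hi2) σ hσ (τ k + τ l)
  have h3 := (h1.add h2).div_const 2
  have e0 : ((if τ k - τ l = 0 then (avC U ψ₁).re else 0) +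
      (if τ k + τ l = 0 then (avC U ψ₂).re else 0)) / 2 = gr U ρ hρ τ k l := by
    unfold gr
    congr 2
    · by_cases h : τ k = τ l
      · rw [if_pos h, if_pos (sub_eq_zero.2 h)]
      · rw [if_neg h, if_neg (fun h' => h (sub_eq_zero.1 h'))]
    · by_cases h : τ k = -τ l
      · rw [if_pos h, if_pos (by rw [h]; ring)]
      · rw [if_neg h, if_neg (fun h' => h (by linarith))]
  rw [e0] at h3
  refine h3.congr' ?_
  filter_upwards [self_mem_nhdsWithin] with ε hε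
  have hε' : (0 : ℝ) < ε := hε
  have hb : ∀ (ψ : GK F ⧸ U → ℂ) (t : ℝ) (v : HeightOneSpectrum (𝓞 F)),
      |(ψ (QuotientGroup.mk (σ v)) * zz t v).re| ≤ ∑ᶠ q, ‖ψ q‖ := by
    intro ψ t v
    let _ : Fintype (GK F ⧸ U) := Fintype.ofFinite _
    refine (Complex.abs_re_le_norm _).trans ?_
    rw [norm_mul, norm_zz, mul_one, finsum_eq_sum_of_fintype]
    exact Finset.single_le_sum (f := fun q => ‖ψ q‖) (fun q _ => norm_nonneg _)
      (Finset.mem_univ _)
  have e1 : (fun v => RR (ρ k) (τ k) σ v * RR (ρ l) (τ l) σ v) = fun v =>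
      (1 / 2 : ℝ) * ((ψ₁ (QuotientGroup.mk (σ v)) * zz (τ k - τ l) v).re +
        (ψ₂ (QuotientGroup.mk (σ v)) * zz (τ k + τ l) v).re) := by
    funext v
    have f1 : A.f (QuotientGroup.mk (σ v)) = (ρ k).character (σ v)⁻¹ := rfl
    have f2 : B.f (QuotientGroup.mk (σ v)) = (ρ l).character (σ v)⁻¹ := rfl
    unfold RR
    rw [hψ₁, hψ₂]
    simp only
    rw [f1, f2]
    set x := (ρ k).character (σ v)⁻¹
    set y := (ρ l).character (σ v)⁻¹
    have g1 : x * conj y * zz (τ k - τ l) v = (x * zz (τ k) v) * conj (y * zz (τ l) v) := by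
      rw [map_mul, zz_conj, sub_eq_add_neg, ← zz_mul]
      ring
    have g2 : x * y * zz (τ k + τ l) v = (x * zz (τ k) v) * (y * zz (τ l) v) := by
      rw [← zz_mul]
      ring
    rw [g1, g2]
    exact re_mul_re _ _
  rw [e1, EP_const_mul, EP_add normSys hε' (hb ψ₁ _) (hb ψ₂ _)]
  change (_ / _ + _ / _) / 2 = _
  unfold zz
  ring

end

end Pool.Agent.R433.AT
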