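import Pool.Agent.R433.AT.Orders
import Pool.Agent.W353.L1.EC
import Pool.Agent.Y722.EP.Point

/-! Elliptic curves `y² = x³ + a x + b`, `a, b ∈ ℤ`: Frobenius eigenvalues and sizes of Artin
twists. -/

set_option autoImplicit false

namespace Pool.Agent.R433.AT

open Complex Filter Topology ComplexConjugate NumberField IsDedekindDomain Polynomial
  Pool.Agent.W401.Cheb Pool.Agent.W540.BE Pool.Agent.W353.L1
open Pool.Agent.H341R2 (lam lam_tendsto)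
open Pool.Agent.Y722.EP (log_ratio points trace rE abs_rE rE_eq IsModular NotIsogenous sys_curves
  EP_sq_le)

section
variable {F : Type} [Field F] [NumberField F]

/-- the Weierstrass equation -/
noncomputable def Wab (F : Type) [Field F] [NumberField F] (a b : ℤ) : WeierstrassCurve (𝓞 F) :=
  ⟨0, 0, 0, (a : 𝓞 F), (b : 𝓞 F)⟩

theorem Wab_disc {a b : ℤ} (h : 4 * a ^ 3 + 27 * b ^ 2 ≠ 0) : (Wab F a b).Δ ≠ 0 := by
  have e : (Wab F a b).Δ = ((-16 * (4 * a ^ 3 + 27 * b ^ 2) : ℤ) : 𝓞 F) := by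
    unfold Wab WeierstrassCurve.Δ WeierstrassCurve.b₂ WeierstrassCurve.b₄ WeierstrassCurve.b₆
      WeierstrassCurve.b₈
    push_cast
    ring
  rw [e]
  exact_mod_cast mul_ne_zero (by norm_num) h

theorem trv_Wab (a b : ℤ) (v : HeightOneSpectrum (𝓞 F)) : trv (Wab F a b) v = trace v a b := by
  unfold trv trace points
  congr 1
  push_cast
  congr 2
  unfold affCount redv Wab
  have : (fun P : (𝓞 F ⧸ v.asIdeal) × (𝓞 F ⧸ v.asIdeal) =>
      P.2 ^ 2 + (WeierstrassCurve.map (⟨0, 0, 0, (a : 𝓞 F), (b : 𝓞 F)⟩ : WeierstrassCurve (𝓞 F))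
        (Ideal.Quotient.mk v.asIdeal)).a₁ * P.1 * P.2 +
      (WeierstrassCurve.map (⟨0, 0, 0, (a : 𝓞 F), (b : 𝓞 F)⟩ : WeierstrassCurve (𝓞 F))
        (Ideal.Quotient.mk v.asIdeal)).a₃ * P.2 =
      P.1 ^ 3 + (WeierstrassCurve.map (⟨0, 0, 0, (a : 𝓞 F), (b : 𝓞 F)⟩ : WeierstrassCurve (𝓞 F))
        (Ideal.Quotient.mk v.asIdeal)).a₂ * P.1 ^ 2 +
      (WeierstrassCurve.map (⟨0, 0, 0, (a : 𝓞 F), (b : 𝓞 F)⟩ : WeierstrassCurve (𝓞 F))
        (Ideal.Quotient.mk v.asIdeal)).a₄ * P.1 +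
      (WeierstrassCurve.map (⟨0, 0, 0, (a : 𝓞 F), (b : 𝓞 F)⟩ : WeierstrassCurve (𝓞 F))
        (Ideal.Quotient.mk v.asIdeal)).a₆) =
      fun P => P.2 ^ 2 = P.1 ^ 3 + (a : 𝓞 F ⧸ v.asIdeal) * P.1 + (b : 𝓞 F ⧸ v.asIdeal) := by
    funext P
    simp [WeierstrassCurve.map]
  rw [this]

/-- The Frobenius eigenvalues and their sum. -/
theorem ec_sum (W : WeierstrassCurve (𝓞 F)) (hΔ : W.Δ ≠ 0) :
    ∃ α : HeightOneSpectrum (𝓞 F) → Fin 2 → ℂ,
      (∀ᶠ v in cofinite, ∀ j, ‖α v j‖ = (nm F v : ℝ) ^ (1 / 2 : ℝ)) ∧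
      (∀ᶠ v in cofinite, ∑ j, α v j = (trv W v : ℂ)) ∧
      ∀ (n : ℕ) (ρ : Representation ℂ (GK F) (Fin n → ℂ)) (B : HeightOneSpectrum (𝓞 F) → ℂ[X]),
        (∀ᶠ v in cofinite, ∀ σ : GK F, IsFrob v σ → ∀ z : ℂ,
          (B v).eval z = LinearMap.det (1 - ((trv W v : ℂ) * z) • ρ σ⁻¹ +
            (((nm F v : ℕ) : ℂ) * z ^ 2) • (ρ σ⁻¹) ^ 2)) →
        ∀ᶠ v in cofinite, ∀ σ : GK F, IsFrob v σ → ∀ z : ℂ,
          (B v).eval z = ∏ j, LinearMap.det (1 - (α v j * z) • ρ σ⁻¹) := by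
  have h6 : (6 : 𝓞 F) ≠ 0 := by norm_num
  have hgood : ∀ᶠ v : HeightOneSpectrum (𝓞 F) in cofinite,
      (6 : 𝓞 F) ∉ v.asIdeal ∧ W.Δ ∉ v.asIdeal := by
    rw [Filter.eventually_cofinite]
    refine ((finite_mem_prime h6).union (finite_mem_prime hΔ)).subset fun v hv => ?_
    rw [Set.mem_ofPred_eq, not_and_or, not_not, not_not] at hv
    exact hv
  have hex : ∀ v : HeightOneSpectrum (𝓞 F), ∃ α : Fin 2 → ℂ,
      ((6 : 𝓞 F) ∉ v.asIdeal ∧ W.Δ ∉ v.asIdeal) →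
        (∀ j, ‖α j‖ = (nm F v : ℝ) ^ (1 / 2 : ℝ)) ∧ α 0 + α 1 = (trv W v : ℂ) ∧
          α 0 * α 1 = ((nm F v : ℕ) : ℂ) := by
    intro v
    by_cases h : (6 : 𝓞 F) ∉ v.asIdeal ∧ W.Δ ∉ v.asIdeal
    · have hpos : (0 : ℝ) < nm F v := by
        have := two_le_nm v
        exact_mod_cast (by omega : 0 < nm F v)
      obtain ⟨α, h1, h2, h3⟩ := exists_roots hpos (hasse_v W v h.1 h.2)
      refine ⟨α, fun _ => ⟨h1, ?_, ?_⟩⟩
      · rw [h2]; simp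
      · rw [h3]; simp
    · exact ⟨0, fun h' => absurd h' h⟩
  choose α hα using hex
  refine ⟨α, hgood.mono fun v hv => (hα v hv).1, hgood.mono fun v hv => ?_, fun n ρ B hB => ?_⟩
  · rw [Fin.sum_univ_two, (hα v hv).2.1]
  · filter_upwards [hgood, hB] with v h1 h2
    intro σ hσ z
    rw [det_two, (hα v h1).2.1, (hα v h1).2.2]
    exact h2 σ hσ z

theorem rE_eventually (a b : ℤ) : ∀ᶠ v : HeightOneSpectrum (𝓞 F) in cofinite,
    rE a b v = (trace v a b : ℝ) / Real.sqrt (nm F v) := by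
  have h2 : (2 : 𝓞 F) ≠ 0 := by norm_num
  rw [Filter.eventually_cofinite]
  refine (finite_mem_prime h2).subset fun v hv => ?_
  by_contra h
  exact hv (rE_eq h a b)

/-- differences supported on finitely many primes -/
theorem EP_cofinite {f g : HeightOneSpectrum (𝓞 F) → ℝ} {A B : ℝ} (hf : ∀ v, |f v| ≤ A)
    (hg : ∀ v, |g v| ≤ B) (h : ∀ᶠ v in cofinite, f v = g v) :
    Tendsto (fun ε : ℝ => (EP (nm F) ε f) / lam ε - (EP (nm F) ε g) / lam ε) (𝓝[>] 0) (𝓝 0) := by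
  classical
  rw [Filter.eventually_cofinite] at h
  have hlim : Tendsto (fun ε : ℝ => (h.toFinset.card * (A + B)) / lam ε) (𝓝[>] 0) (𝓝 0) :=
    tendsto_const_nhds.div_atTop lam_tendsto
  refine squeeze_zero_norm' ?_ hlim
  filter_upwards [lam_tendsto.eventually_gt_atTop 0, self_mem_nhdsWithin] with ε h1 h2
  have hε : (0 : ℝ) < ε := h2
  rw [Real.norm_eq_abs, ← sub_div, abs_div, abs_of_pos h1]
  refine div_le_div_of_nonneg_right ?_ h1.le
  have e : EP (nm F) ε f - EP (nm F) ε g = EP (nm F) ε (fun v => f v + (-1) * g v) := by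
    rw [EP_add normSys hε hf (ψ := fun v => (-1) * g v) (B' := B) (fun v => by
      rw [abs_mul, abs_neg, abs_one, one_mul]; exact hg v), EP_const_mul]
    ring
  rw [e]
  refine EP_finsupp normSys h.toFinset _ (fun v hv => ?_) _ (fun v => ?_) hε
  · rw [Set.Finite.mem_toFinset, Set.mem_ofPred_eq, not_not] at hv
    rw [hv]
    ring
  · refine (abs_add_le _ _).trans (add_le_add (hf v) ?_)
    rw [abs_mul, abs_neg, abs_one, one_mul]
    exact hg v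

/-- **Sizes of the Artin twists.** -/
theorem size_ab (U : Subgroup (GK F)) [U.Normal] [Finite (GK F ⧸ U)] {a b : ℤ}
    (hΔ : 4 * a ^ 3 + 27 * b ^ 2 ≠ 0) {n : ℕ} (ρ : Representation ℂ (GK F) (Fin n → ℂ))
    (hρ : ∀ u ∈ U, ρ u = 1) (τ : ℝ) (B : HeightOneSpectrum (𝓞 F) → ℂ[X])
    (hB : ∀ᶠ v in cofinite, ∀ σ : GK F, IsFrob v σ → ∀ z : ℂ,
      (B v).eval z = LinearMap.det (1 - ((trace v a b : ℂ) * z) • ρ σ⁻¹ +
        (((nm F v : ℕ) : ℂ) * z ^ 2) • (ρ σ⁻¹) ^ 2))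
    (hB0 : ∀ v, (B v).eval (((nm F v : ℕ) : ℂ) ^ (-(3 / 2 + τ * I : ℂ))) ≠ 0)
    (σ : HeightOneSpectrum (𝓞 F) → GK F) (hσ : ∀ v, IsFrob v (σ v)) (L : ℂ → ℂ)
    (hL : ∀ s, L s = ∏' v, ((B v).eval (((nm F v : ℕ) : ℂ) ^ (-s)))⁻¹) :
    (∀ᶠ ε : ℝ in 𝓝[>] 0, L (3 / 2 + τ * I + ε) ≠ 0) ∧
    Tendsto (fun ε : ℝ => (EP (nm F) ε fun v => rE a b v * RR ρ τ σ v) / lam ε -
        Real.log ‖L (3 / 2 + τ * I + ε)‖ / Real.log (1 / ε)) (𝓝[>] 0) (𝓝 0) := by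
  obtain ⟨α, h1, h2, h3⟩ := ec_sum (F := F) (Wab F a b) (Wab_disc hΔ)
  have hs : (((1 / 2 : ℝ) : ℂ) + 1 + τ * I) = 3 / 2 + τ * I := by
    push_cast
    ring
  have h2' : ∀ᶠ v in cofinite, (∑ j, α v j).im = 0 := h2.mono fun v hv => by
    rw [hv, Complex.intCast_im]
  have h4 := h3 n ρ B (hB.mono fun v hv => by rw [trv_Wab]; exact hv)
  obtain ⟨h5, h6⟩ := size_corr (1 / 2) α h1 h2' U ρ hρ τ B h4 (by rw [hs]; exact hB0) L
    (fun s _ => hL s) σ hσ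
  rw [hs] at h5 h6
  refine ⟨h5, ?_⟩
  have h7 := EP_cofinite (F := F) (f := fun v => rE a b v * RR ρ τ σ v)
    (g := fun v => ((tr (1 / 2) α v : ℂ) * (ρ.character (σ v)⁻¹ * zz τ v)).re)
    (A := 2 * n) (B := 2 * n) (fun v => by
      rw [abs_mul]
      exact mul_le_mul (abs_rE a b v) (abs_RR_le U ρ hρ _ _ _) (abs_nonneg _) (by norm_num))
    (fun v => by
      rw [Complex.re_ofReal_mul, abs_mul]
      have := abs_tr_le (1 / 2) α v
      push_cast at this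
      exact mul_le_mul this (abs_RR_le U ρ hρ _ _ _) (abs_nonneg _) (by norm_num)) (by
      filter_upwards [h1, h2, rE_eventually (F := F) a b] with v g1 g2 g3
      rw [Complex.re_ofReal_mul]
      change rE a b v * (ρ.character (σ v)⁻¹ * zz τ v).re = _
      congr 1
      have g4 : (tr (1 / 2) α v : ℂ) = ((rE a b v : ℝ) : ℂ) := by
        rw [tr_eq g1 (by rw [g2, Complex.intCast_im]), g2, trv_Wab, g3]
        have g5 : ((nm F v : ℕ) : ℂ) ^ (-((1 / 2 : ℝ) : ℂ)) =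
            (((Real.sqrt (nm F v))⁻¹ : ℝ) : ℂ) := by
          rw [Real.sqrt_eq_rpow, ← Real.rpow_neg (Nat.cast_nonneg _),
            Complex.ofReal_cpow (Nat.cast_nonneg _)]
          push_cast
          rfl
        rw [g5]
        push_cast
        rfl
      exact_mod_cast g4.symm)
  have h8 := h7.add h6
  rw [zero_add] at h8
  refine h8.congr fun ε => ?_
  ring

end

/-- the mean squares over the primes of `ℚ` -/
theorem meanOne {ι : Type*} [Fintype ι] (a b : ι → ℤ) (hmod : ∀ i, IsModular (a i) (b i))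
    (hne : ∀ i j, i ≠ j → NotIsogenous (a i) (b i) (a j) (b j))
    (hΔ : ∀ i, 4 * a i ^ 3 + 27 * b i ^ 2 ≠ 0) :
    MeanOne (F := ℚ) fun i => rE (a i) (b i) := by
  obtain ⟨t, ht, hR⟩ := sys_curves (Finset.univ : Finset ι) a b (fun i _ => hmod i)
    (fun i _ j _ => hne i j) (fun i _ => hΔ i) ℚ
  refine ⟨fun i v => abs_rE _ _ v, fun B => ?_⟩
  obtain ⟨C, hC⟩ := EP_sq_le ht hR B
  refine ⟨C, hC.mono fun ε h c hc => ?_⟩
  have h1 := h c (fun i _ => hc i)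
  rw [Module.finrank_self, Nat.cast_one, one_mul] at h1
  exact h1

end Pool.Agent.R433.AT
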