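import Pool.Agent.R433.AT.Curve

/-! The case of equality: the normalised traces are character values in mean square. -/

set_option autoImplicit false

namespace Pool.Agent.R433.AT

open Complex Filter Topology ComplexConjugate NumberField IsDedekindDomain Polynomial
  Pool.Agent.W401.Cheb Pool.Agent.W540.BE Pool.Agent.W353.L1
open Pool.Agent.H341R2 (lam lam_tendsto)
open Pool.Agent.Y722.EP (log_ratio)

section
variable {F : Type} [Field F] [NumberField F]
  (U : Subgroup (GK F)) [U.Normal] [Finite (GK F ⧸ U)] {κ : Type*} [Fintype κ] {n : κ → ℕ}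
    (ρ : ∀ k, Representation ℂ (GK F) (Fin (n k) → ℂ)) (hρ : ∀ k, ∀ u ∈ U, ρ k u = 1)
  {ι : Type*} [Fintype ι] {R : ι → HeightOneSpectrum (𝓞 F) → ℝ}
  (hR : MeanOne R) (hU : IsOpen (U : Set (GK F))) (τ : κ → ℝ)
    (σ : HeightOneSpectrum (𝓞 F) → GK F) (hσ : ∀ v, IsFrob v (σ v))
    {x : ι → κ → ℝ → ℝ}
    (hx : ∀ i k, Tendsto (fun ε : ℝ => (EP (nm F) ε fun v => R i v * RR (ρ k) (τ k) σ v) / lam ε -
      x i k ε) (𝓝[>] 0) (𝓝 0))
    (m : ι → κ → ℤ) (hm : ∀ i k, Tendsto (x i k) (𝓝[>] 0) (𝓝 (-(m i k : ℝ))))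

include hρ hR hU hσ hx hm in
theorem mean_sq_zero {i : ι} {k : κ} (hk : (ρ k).IsIrreducible) (h : m i k ≠ 0) :
    Tendsto (fun ε : ℝ => (EP (nm F) ε fun v => (R i v + m i k * RR (ρ k) (τ k) σ v) ^ 2) / lam ε)
      (𝓝[>] 0) (𝓝 0) := by
  classical
  have hN : NormSys (nm F) := normSys
  obtain ⟨a1, a2, a3, a4⟩ := exceptional U ρ hρ hR hU τ σ hσ hx m hm hk h
  have a3' : (m i k : ℝ) ^ 2 = 1 := by exact_mod_cast a3
  obtain ⟨C, hC⟩ := hR.2 1
  have hX := (hx i k).add (hm i k)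
  rw [zero_add] at hX
  have hX' : Tendsto (fun ε : ℝ => (EP (nm F) ε fun v => R i v * RR (ρ k) (τ k) σ v) / lam ε)
      (𝓝[>] 0) (𝓝 (-(m i k : ℝ))) := hX.congr fun ε => by ring
  have hG := gr_lim U ρ hρ hU τ σ hσ k k
  rw [a4] at hG
  have hL : Tendsto (fun ε : ℝ => Real.log (1 / ε) / lam ε + |C| / lam ε +
      2 * (m i k : ℝ) * ((EP (nm F) ε fun v => R i v * RR (ρ k) (τ k) σ v) / lam ε) +
      (EP (nm F) ε fun v => RR (ρ k) (τ k) σ v * RR (ρ k) (τ k) σ v) / lam ε) (𝓝[>] 0)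
      (𝓝 (1 + 0 + 2 * (m i k : ℝ) * (-(m i k : ℝ)) + 1)) :=
    ((log_ratio.add (tendsto_const_nhds.div_atTop lam_tendsto)).add (hX'.const_mul _)).add hG
  have e0 : (1 : ℝ) + 0 + 2 * (m i k : ℝ) * (-(m i k : ℝ)) + 1 = 0 := by
    have : (1 : ℝ) + 0 + 2 * (m i k : ℝ) * (-(m i k : ℝ)) + 1 = 2 - 2 * (m i k : ℝ) ^ 2 := by ring
    rw [this, a3']
    norm_num
  rw [e0] at hL
  refine squeeze_zero' ?_ ?_ hL
  · filter_upwards [lam_tendsto.eventually_gt_atTop 0] with ε h2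
    exact div_nonneg (EP_nonneg fun v => sq_nonneg _) h2.le
  · filter_upwards [hC, lam_tendsto.eventually_gt_atTop 0, self_mem_nhdsWithin] with ε h1 h2 h3
    have hε : (0 : ℝ) < ε := h3
    have h4 := h1 (Pi.single i 1) (fun j => by
      by_cases hj : j = i
      · subst hj; simp
      · simp [hj])
    have e1 : ∀ v, ∑ j, (Pi.single i 1 : ι → ℝ) j * R j v = R i v := by
      intro v
      rw [Finset.sum_eq_single i (fun j _ hj => by simp [hj])
        (fun h => absurd (Finset.mem_univ _) h)]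
      simp
    have e2 : ∑ j, ((Pi.single i 1 : ι → ℝ) j) ^ 2 = 1 := by
      rw [Finset.sum_eq_single i (fun j _ hj => by simp [hj])
        (fun h => absurd (Finset.mem_univ _) h)]
      simp
    simp only [e1, e2, one_mul] at h4
    have hRb := hR.1 i
    have hn' : ∀ v, |RR (ρ k) (τ k) σ v| ≤ n k := fun v => abs_RR_le U (ρ k) (hρ k) _ _ _
    have hab : |(m i k : ℝ)| = 1 := by
      rw [← sq_abs] at a3'
      nlinarith [abs_nonneg (m i k : ℝ)]
    have e3 : (fun v => (R i v + m i k * RR (ρ k) (τ k) σ v) ^ 2) = fun v =>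
        R i v ^ 2 + ((2 * (m i k : ℝ)) * (R i v * RR (ρ k) (τ k) σ v) +
          RR (ρ k) (τ k) σ v * RR (ρ k) (τ k) σ v) := by
      funext v
      have : (R i v + m i k * RR (ρ k) (τ k) σ v) ^ 2 = R i v ^ 2 +
        ((2 * (m i k : ℝ)) * (R i v * RR (ρ k) (τ k) σ v) +
          (m i k : ℝ) ^ 2 * (RR (ρ k) (τ k) σ v * RR (ρ k) (τ k) σ v)) := by ring
      rw [this, a3', one_mul]
    have b1 : ∀ v, |R i v ^ 2| ≤ 4 := fun v => by
      rw [abs_pow]
      calc |R i v| ^ 2 ≤ 2 ^ 2 := pow_le_pow_left₀ (abs_nonneg _) (hRb v) 2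
        _ = 4 := by norm_num
    have b2 : ∀ v, |(2 * (m i k : ℝ)) * (R i v * RR (ρ k) (τ k) σ v)| ≤ 2 * (2 * n k) := fun v => by
      rw [abs_mul, abs_mul, abs_mul, hab]
      have := mul_le_mul (hRb v) (hn' v) (abs_nonneg _) (by norm_num : (0 : ℝ) ≤ 2)
      have h2 : |(2 : ℝ)| = 2 := abs_of_pos (by norm_num)
      rw [h2]
      linarith
    have b3 : ∀ v, |RR (ρ k) (τ k) σ v * RR (ρ k) (τ k) σ v| ≤ (n k : ℝ) * n k := fun v => by
      rw [abs_mul]
      exact mul_le_mul (hn' v) (hn' v) (abs_nonneg _) (Nat.cast_nonneg _)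
    rw [e3, EP_add hN hε b1 (fun v => (abs_add_le _ _).trans (add_le_add (b2 v) (b3 v))),
      EP_add hN hε b2 b3, EP_const_mul, div_le_iff₀ h2]
    have h6 : (EP (nm F) ε fun v => R i v ^ 2) ≤ Real.log (1 / ε) + |C| := by
      have := le_abs_self C
      linarith
    have e4 : (Real.log (1 / ε) / lam ε + |C| / lam ε +
      2 * (m i k : ℝ) * ((EP (nm F) ε fun v => R i v * RR (ρ k) (τ k) σ v) / lam ε) +
      (EP (nm F) ε fun v => RR (ρ k) (τ k) σ v * RR (ρ k) (τ k) σ v) / lam ε) * lam ε =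
      Real.log (1 / ε) + |C| + (2 * (m i k : ℝ) * (EP (nm F) ε fun v => R i v *
        RR (ρ k) (τ k) σ v) + (EP (nm F) ε fun v => RR (ρ k) (τ k) σ v *
        RR (ρ k) (τ k) σ v)) := by
      field_simp
      ring
    rw [e4]
    linarith

end

section
variable {F : Type} [Field F] [NumberField F]
  (U : Subgroup (GK F)) [U.Normal] [Finite (GK F ⧸ U)] {κ : Type*} {n : κ → ℕ}
    (ρ : ∀ k, Representation ℂ (GK F) (Fin (n k) → ℂ)) (hρ : ∀ k, ∀ u ∈ U, ρ k u = 1)

theorem chF_mk (k : κ) (g : GK F) :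
    (chF U ρ hρ k).f (QuotientGroup.mk g) = (ρ k).character g⁻¹ := rfl

theorem im_of_chF {k : κ} (h : ∀ q, ((chF U ρ hρ k).f q).im = 0) (g : GK F) :
    ((ρ k).character g).im = 0 := by
  have h1 := h (QuotientGroup.mk g⁻¹)
  rw [chF_mk, inv_inv] at h1
  exact h1

open Classical in
/-- the Gram numbers as mean values -/
theorem gr_eq (τ : κ → ℝ) (k l : κ) : gr U ρ hρ τ k l =
    (∑ᶠ q : GK F ⧸ U, ((if τ k = τ l then
      ((ρ k).character q.out * conj ((ρ l).character q.out)).re else 0) +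
      (if τ k = -τ l then ((ρ k).character q.out * (ρ l).character q.out).re else 0))) /
      (2 * Nat.card (GK F ⧸ U)) := by
  let _ : Fintype (GK F ⧸ U) := Fintype.ofFinite _
  have hc : (0 : ℝ) < Nat.card (GK F ⧸ U) := by exact_mod_cast Nat.card_pos
  have e1 : ∀ (k : κ) (q : GK F ⧸ U), (chF U ρ hρ k).f q⁻¹ = (ρ k).character q.out := by
    intro k q
    conv_lhs => rw [← QuotientGroup.out_eq' q, ← QuotientGroup.mk_inv]
    rw [chF_mk, inv_inv]
  have e2 : avR U (fun q => ((chF U ρ hρ k).f q * conj ((chF U ρ hρ l).f q)).re) =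
      (∑ q : GK F ⧸ U, ((ρ k).character q.out * conj ((ρ l).character q.out)).re) /
        Nat.card (GK F ⧸ U) := by
    unfold avR
    rw [finsum_eq_sum_of_fintype, inv_mul_eq_div, ← Equiv.sum_comp (Equiv.inv _)]
    congr 1
    exact Finset.sum_congr rfl fun q _ => by rw [Equiv.inv_apply, e1, e1]
  have e3 : avR U (fun q => ((chF U ρ hρ k).f q * (chF U ρ hρ l).f q).re) =
      (∑ q : GK F ⧸ U, ((ρ k).character q.out * (ρ l).character q.out).re) /
        Nat.card (GK F ⧸ U) := by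
    unfold avR
    rw [finsum_eq_sum_of_fintype, inv_mul_eq_div, ← Equiv.sum_comp (Equiv.inv _)]
    congr 1
    exact Finset.sum_congr rfl fun q _ => by rw [Equiv.inv_apply, e1, e1]
  unfold gr
  rw [avC_re, avC_re, e2, e3, finsum_eq_sum_of_fintype, Finset.sum_add_distrib]
  by_cases h1 : τ k = τ l <;> by_cases h2 : τ k = -τ l
  · simp only [if_pos h1, if_pos h2]
    field_simp
  · simp only [if_pos h1, if_neg h2, Finset.sum_const_zero]
    field_simp
    ring
  · simp only [if_neg h1, if_pos h2, Finset.sum_const_zero]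
    field_simp
    ring
  · simp only [if_neg h1, if_neg h2, Finset.sum_const_zero]
    simp

/-- bounded up to finitely many exceptions -/
theorem bdd_of_cofinite {f g : HeightOneSpectrum (𝓞 F) → ℝ} {B : ℝ} (hg : ∀ v, |g v| ≤ B)
    (h : ∀ᶠ v in cofinite, f v = g v) : ∃ A : ℝ, ∀ v, |f v| ≤ A := by
  rw [Filter.eventually_cofinite] at h
  refine ⟨|B| + ∑ v ∈ h.toFinset, |f v|, fun v => ?_⟩
  have h0 : 0 ≤ ∑ v ∈ h.toFinset, |f v| := Finset.sum_nonneg fun v _ => abs_nonneg _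
  by_cases hv : f v = g v
  · rw [hv]
    have := (hg v).trans (le_abs_self B)
    linarith
  · have h1 : v ∈ h.toFinset := by
      rw [Set.Finite.mem_toFinset]
      exact hv
    have h2 := Finset.single_le_sum (f := fun v => |f v|) (fun v _ => abs_nonneg _) h1
    have := abs_nonneg B
    linarith

include U hρ in
/-- the mean square with the traces of Frobenius -/
theorem mean_sq_trace (τ : κ → ℝ) {a b : ℤ} {k : κ} (σ : HeightOneSpectrum (𝓞 F) → GK F) (m : ℤ)
    (hτ : τ k = 0) (h : Tendsto (fun ε : ℝ => (EP (nm F) ε fun v =>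
      (Pool.Agent.Y722.EP.rE a b v + m * RR (ρ k) (τ k) σ v) ^ 2) / lam ε) (𝓝[>] 0) (𝓝 0)) :
    Tendsto (fun ε : ℝ => (∑' v : HeightOneSpectrum (𝓞 F),
      ((Pool.Agent.Y722.EP.trace v a b : ℝ) / Real.sqrt (Ideal.absNorm v.asIdeal) +
        m * ((ρ k).character (σ v)).re) ^ 2 *
        (Ideal.absNorm v.asIdeal : ℝ) ^ (-(1 + ε))) / Real.log (1 / ε)) (𝓝[>] 0) (𝓝 0) := by
  set g : HeightOneSpectrum (𝓞 F) → ℝ := fun v =>
    (Pool.Agent.Y722.EP.rE a b v + m * RR (ρ k) (τ k) σ v) ^ 2 with hg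
  set f : HeightOneSpectrum (𝓞 F) → ℝ := fun v =>
    ((Pool.Agent.Y722.EP.trace v a b : ℝ) / Real.sqrt (nm F v) +
        m * ((ρ k).character (σ v)).re) ^ 2 with hf
  have hRR : ∀ v, RR (ρ k) (τ k) σ v = ((ρ k).character (σ v)).re := by
    intro v
    unfold RR
    have h8 : zz (τ k) v = 1 := by
      rw [hτ]
      unfold zz
      simp
    have h9 := char_conj_eq U (ρ k) (hρ k) (σ v)
    rw [h8, mul_one, ← h9, Complex.conj_re]
  have hgb : ∀ v, |g v| ≤ (2 + |(m : ℝ)| * n k) ^ 2 := by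
    intro v
    rw [hg]
    simp only
    rw [abs_pow]
    refine pow_le_pow_left₀ (abs_nonneg _) ?_ 2
    refine (abs_add_le _ _).trans (add_le_add (Pool.Agent.Y722.EP.abs_rE a b v) ?_)
    rw [abs_mul]
    exact mul_le_mul_of_nonneg_left (abs_RR_le U (ρ k) (hρ k) _ _ _) (abs_nonneg _)
  have hfg : ∀ᶠ v in cofinite, f v = g v := by
    filter_upwards [rE_eventually (F := F) a b] with v hv
    rw [hf, hg]
    simp only
    rw [hv, hRR]
  obtain ⟨A, hA⟩ := bdd_of_cofinite hgb hfg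
  have h1 := (EP_cofinite hA hgb hfg).add h
  rw [zero_add] at h1
  have h2 : Tendsto (fun ε : ℝ => EP (nm F) ε f / lam ε) (𝓝[>] 0) (𝓝 0) :=
    h1.congr fun ε => by ring
  have h3 := h2.div log_ratio one_ne_zero
  rw [zero_div] at h3
  refine h3.congr' ?_
  filter_upwards [lam_tendsto.eventually_gt_atTop 0] with ε h4
  have e : (∑' v : HeightOneSpectrum (𝓞 F),
      ((Pool.Agent.Y722.EP.trace v a b : ℝ) / Real.sqrt (Ideal.absNorm v.asIdeal) +
        m * ((ρ k).character (σ v)).re) ^ 2 *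
        (Ideal.absNorm v.asIdeal : ℝ) ^ (-(1 + ε))) = EP (nm F) ε f := rfl
  rw [e, Pi.div_apply, div_div_div_cancel_right₀ h4.ne']

end

end Pool.Agent.R433.AT
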