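import Pool.Agent.R433.AT.Core

/-! Orders: consequences of the matrix inequality. -/

set_option autoImplicit false

namespace Pool.Agent.R433.AT

open Complex Filter Topology ComplexConjugate NumberField IsDedekindDomain
  Pool.Agent.W401.Cheb Pool.Agent.W540.BE Pool.Agent.W353.L1
open Pool.Agent.H341R2 (lam lam_tendsto)
open Pool.Agent.Y722.EP (log_ratio)

section
variable {F : Type} [Field F] [NumberField F]
  (U : Subgroup (GK F)) [U.Normal] [Finite (GK F ⧸ U)] {κ : Type*} {n : κ → ℕ}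
    (ρ : ∀ k, Representation ℂ (GK F) (Fin (n k) → ℂ)) (hρ : ∀ k, ∀ u ∈ U, ρ k u = 1)

omit [NumberField F] [U.Normal] [Finite (GK F ⧸ U)] in
theorem re_sq_le (z : ℂ) : (z * z).re ≤ ‖z‖ ^ 2 := by
  have h := (le_abs_self _).trans (Complex.abs_re_le_norm (z * z))
  rw [norm_mul] at h
  rw [sq]
  exact h

theorem avC_norm_sq {k : κ} (hk : (ρ k).IsIrreducible) :
    avR U (fun q => ‖(chF U ρ hρ k).f q‖ ^ 2) = 1 := sq_one U ρ hρ hk

theorem avC_re (ψ : GK F ⧸ U → ℂ) : (avC U ψ).re = avR U fun q => (ψ q).re := by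
  let _ : Fintype (GK F ⧸ U) := Fintype.ofFinite _
  unfold avC avR
  rw [finsum_eq_sum_of_fintype, finsum_eq_sum_of_fintype]
  have e : ((Nat.card (GK F ⧸ U) : ℂ)⁻¹) = (((Nat.card (GK F ⧸ U) : ℝ)⁻¹ : ℝ) : ℂ) := by
    push_cast
    rfl
  rw [e, Complex.re_ofReal_mul, Complex.re_sum]

theorem avR_sub (ψ φ : GK F ⧸ U → ℝ) : avR U (fun q => ψ q - φ q) = avR U ψ - avR U φ := by
  let _ : Fintype (GK F ⧸ U) := Fintype.ofFinite _
  unfold avR
  rw [finsum_eq_sum_of_fintype, finsum_eq_sum_of_fintype, finsum_eq_sum_of_fintype,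
    Finset.sum_sub_distrib]
  ring

theorem avR_eq_zero {ψ : GK F ⧸ U → ℝ} (h0 : ∀ q, 0 ≤ ψ q) (h : avR U ψ ≤ 0) (q : GK F ⧸ U) :
    ψ q = 0 := by
  let _ : Fintype (GK F ⧸ U) := Fintype.ofFinite _
  unfold avR at h
  rw [finsum_eq_sum_of_fintype] at h
  have hc : (0 : ℝ) < Nat.card (GK F ⧸ U) := by exact_mod_cast Nat.card_pos
  have h1 : ∑ q, ψ q ≤ 0 := by
    by_contra h2
    push Not at h2
    have := mul_pos (inv_pos.2 hc) h2
    linarith
  have h2 := Finset.single_le_sum (f := ψ) (fun q _ => h0 q) (Finset.mem_univ q)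
  exact le_antisymm (h2.trans h1) (h0 q)

/-- the diagonal -/
theorem gr_self_le (τ : κ → ℝ) {k : κ} (hk : (ρ k).IsIrreducible) : gr U ρ hρ τ k k ≤ 1 := by
  classical
  have h1 : (avC U fun q => (chF U ρ hρ k).f q * conj ((chF U ρ hρ k).f q)).re = 1 := by
    rw [avC_ortho U ρ hρ hk hk, if_pos ⟨Representation.Equiv.refl _⟩, Complex.one_re]
  have h2 : (avC U fun q => (chF U ρ hρ k).f q * (chF U ρ hρ k).f q).re ≤ 1 := by
    have e0 : avR U (fun q => ‖(chF U ρ hρ k).f q‖ ^ 2 -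
        ((chF U ρ hρ k).f q * (chF U ρ hρ k).f q).re) =
        1 - (avC U fun q => (chF U ρ hρ k).f q * (chF U ρ hρ k).f q).re := by
      rw [avR_sub, avC_re, avC_norm_sq U ρ hρ hk]
    have e1 : 0 ≤ avR U (fun q => ‖(chF U ρ hρ k).f q‖ ^ 2 -
        ((chF U ρ hρ k).f q * (chF U ρ hρ k).f q).re) := by
      refine avR_nonneg U fun q => ?_
      have := re_sq_le ((chF U ρ hρ k).f q)
      linarith
    linarith
  unfold gr
  rw [if_pos rfl, h1]
  split_ifs with h <;> linarith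

/-- if the diagonal entry is one the height is zero and the character is real -/
theorem real_of_gr (τ : κ → ℝ) {k : κ} (hk : (ρ k).IsIrreducible) (h : 1 ≤ gr U ρ hρ τ k k) :
    τ k = 0 ∧ ∀ q, ((chF U ρ hρ k).f q).im = 0 := by
  classical
  have h1 : (avC U fun q => (chF U ρ hρ k).f q * conj ((chF U ρ hρ k).f q)).re = 1 := by
    rw [avC_ortho U ρ hρ hk hk, if_pos ⟨Representation.Equiv.refl _⟩, Complex.one_re]
  unfold gr at h
  rw [if_pos rfl, h1] at h
  by_cases h2 : τ k = -τ k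
  · rw [if_pos h2] at h
    refine ⟨by linarith, fun q => ?_⟩
    have e0 : avR U (fun q => ‖(chF U ρ hρ k).f q‖ ^ 2 -
        ((chF U ρ hρ k).f q * (chF U ρ hρ k).f q).re) =
        1 - (avC U fun q => (chF U ρ hρ k).f q * (chF U ρ hρ k).f q).re := by
      rw [avR_sub, avC_re, avC_norm_sq U ρ hρ hk]
    have e1 := avR_eq_zero U (ψ := fun q => ‖(chF U ρ hρ k).f q‖ ^ 2 -
        ((chF U ρ hρ k).f q * (chF U ρ hρ k).f q).re) (fun q => by
      have := re_sq_le ((chF U ρ hρ k).f q)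
      linarith) (by rw [e0]; linarith) q
    rw [← Complex.normSq_eq_norm_sq, Complex.normSq_apply, Complex.mul_re] at e1
    have e2 : ((chF U ρ hρ k).f q).im * ((chF U ρ hρ k).f q).im = 0 := by linarith
    exact mul_self_eq_zero.1 e2
  · rw [if_neg h2] at h
    linarith

/-- off the diagonal -/
theorem gr_off (τ : κ → ℝ) {k l : κ} (hk : (ρ k).IsIrreducible) (hl : (ρ l).IsIrreducible)
    (hne : IsEmpty ((ρ k).Equiv (ρ l)))
    (hlr : ∀ q, ((chF U ρ hρ l).f q).im = 0) : gr U ρ hρ τ k l = 0 := by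
  classical
  have h1 : (avC U fun q => (chF U ρ hρ k).f q * conj ((chF U ρ hρ l).f q)) = 0 := by
    rw [avC_ortho U ρ hρ hk hl, if_neg (by rwa [not_nonempty_iff])]
  have h2 : (avC U fun q => (chF U ρ hρ k).f q * (chF U ρ hρ l).f q) = 0 := by
    rw [← h1]
    congr 1
    funext q
    rw [Complex.conj_eq_iff_im.2 (hlr q)]
  unfold gr
  rw [h1, h2]
  simp

end

section
variable {F : Type} [Field F] [NumberField F]
  (U : Subgroup (GK F)) [U.Normal] [Finite (GK F ⧸ U)] {κ : Type*} [Fintype κ] {n : κ → ℕ}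
    (ρ : ∀ k, Representation ℂ (GK F) (Fin (n k) → ℂ)) (hρ : ∀ k, ∀ u ∈ U, ρ k u = 1)
  {ι : Type*} [Fintype ι] {R : ι → HeightOneSpectrum (𝓞 F) → ℝ}
  (hR : MeanOne R) (hU : IsOpen (U : Set (GK F))) (τ : κ → ℝ)
    (σ : HeightOneSpectrum (𝓞 F) → GK F) (hσ : ∀ v, IsFrob v (σ v))
    {x : ι → κ → ℝ → ℝ}
    (hx : ∀ i k, Tendsto (fun ε : ℝ => (EP (nm F) ε fun v => R i v * RR (ρ k) (τ k) σ v) / lam ε -
      x i k ε) (𝓝[>] 0) (𝓝 0))
    (m : ι → κ → ℤ) (hm : ∀ i k, Tendsto (x i k) (𝓝[>] 0) (𝓝 (-(m i k : ℝ))))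

include hρ hR hU hσ hx hm in
/-- the matrix inequality for the orders -/
theorem matrix_order (c : ι → ℝ) (d : κ → ℝ) (hc : ∀ i, 0 ≤ c i) :
    (∑ i, ∑ k, c i * d k * m i k) ^ 2 ≤
      (∑ i, c i ^ 2) * (∑ k, ∑ l, d k * d l * gr U ρ hρ τ k l) := by
  classical
  set C : ℝ := (∑ i, c i) + ∑ k, |d k| with hC
  have hcC : ∀ i, c i ≤ C := fun i => by
    have h1 := Finset.single_le_sum (f := c) (fun i _ => hc i) (Finset.mem_univ i)
    have h2 : 0 ≤ ∑ k, |d k| := Finset.sum_nonneg fun k _ => abs_nonneg _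
    rw [hC]
    linarith
  have hdC : ∀ k, |d k| ≤ C := fun k => by
    have h1 := Finset.single_le_sum (f := fun k => |d k|) (fun k _ => abs_nonneg _)
      (Finset.mem_univ k)
    have h2 : 0 ≤ ∑ i, c i := Finset.sum_nonneg fun i _ => hc i
    rw [hC]
    linarith
  refine le_of_forall_pos_le_add fun η hη => ?_
  have h1 : Tendsto (fun ε => (∑ i, ∑ k, c i * d k * x i k ε) ^ 2) (𝓝[>] 0)
      (𝓝 ((∑ i, ∑ k, c i * d k * (-(m i k : ℝ))) ^ 2)) :=
    (tendsto_finsetSum _ fun i _ => tendsto_finsetSum _ fun k _ => (hm i k).const_mul _).pow 2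
  have e : (∑ i, ∑ k, c i * d k * (-(m i k : ℝ))) = -∑ i, ∑ k, c i * d k * m i k := by
    rw [← Finset.sum_neg_distrib]
    refine Finset.sum_congr rfl fun i _ => ?_
    rw [← Finset.sum_neg_distrib]
    exact Finset.sum_congr rfl fun k _ => by ring
  rw [e, neg_sq] at h1
  refine le_of_tendsto h1 ?_
  filter_upwards [matrix_ineq U ρ hρ hR hU τ σ hσ hx (C := C) hη] with ε h2
  exact h2 c d (fun i => ⟨hc i, hcC i⟩) hdC

include hρ hR hU hσ hx hm in
theorem order_one (i : ι) (k : κ) : ((m i k : ℝ)) ^ 2 ≤ gr U ρ hρ τ k k := by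
  classical
  have h := matrix_order U ρ hρ hR hU τ σ hσ hx m hm (Pi.single i 1) (Pi.single k 1) (fun j => by
    by_cases hj : j = i
    · subst hj; simp
    · simp [hj])
  simpa [Pi.single_apply] using h

include hρ hR hU hσ hx hm in
/-- exceptional pairs -/
theorem exceptional {i : ι} {k : κ} (hk : (ρ k).IsIrreducible) (h : m i k ≠ 0) :
    τ k = 0 ∧ (∀ q, ((chF U ρ hρ k).f q).im = 0) ∧ m i k ^ 2 = 1 ∧ gr U ρ hρ τ k k = 1 := by
  have h1 := order_one U ρ hρ hR hU τ σ hσ hx m hm i k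
  have h2 := gr_self_le U ρ hρ τ hk
  have h3 : 1 ≤ m i k ^ 2 := by
    have := sq_nonneg (m i k)
    have h4 : 0 < m i k ^ 2 := by positivity
    omega
  have h3' : (1 : ℝ) ≤ (m i k : ℝ) ^ 2 := by exact_mod_cast h3
  have h4 := real_of_gr U ρ hρ τ hk (h3'.trans h1)
  refine ⟨h4.1, h4.2, ?_, le_antisymm h2 (h3'.trans h1)⟩
  have h5 : (m i k : ℝ) ^ 2 ≤ 1 := h1.trans h2
  have h6 : m i k ^ 2 ≤ 1 := by exact_mod_cast h5
  omega

include hρ hR hU hσ hx hm in
/-- rows -/
theorem row_unique {i : ι} {k l : κ} (hk : (ρ k).IsIrreducible) (hl : (ρ l).IsIrreducible)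
    (hkl : k ≠ l) (hne : τ k = τ l → IsEmpty ((ρ k).Equiv (ρ l))) (h : m i k ≠ 0) :
    m i l = 0 := by
  classical
  by_contra h'
  obtain ⟨a1, a2, a3, a4⟩ := exceptional U ρ hρ hR hU τ σ hσ hx m hm hk h
  obtain ⟨b1, b2, b3, b4⟩ := exceptional U ρ hρ hR hU τ σ hσ hx m hm hl h'
  have h0 := hne (by rw [a1, b1])
  have h0' : IsEmpty ((ρ l).Equiv (ρ k)) := by
    rw [← not_nonempty_iff] at h0 ⊢
    exact fun ⟨e⟩ => h0 ⟨e.symm⟩
  have g1 := gr_off U ρ hρ τ hk hl h0 b2
  have g2 := gr_off U ρ hρ τ hl hk h0' a2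
  set d : κ → ℝ := fun j => if j = k then (m i k : ℝ) else if j = l then (m i l : ℝ) else 0 with hd
  have hdk : d k = m i k := by rw [hd]; simp
  have hdl : d l = m i l := by rw [hd]; simp [Ne.symm hkl]
  have hd0 : ∀ j, j ≠ k → j ≠ l → d j = 0 := fun j h1 h2 => by rw [hd]; simp [h1, h2]
  have hsum : ∀ f : κ → ℝ, (∀ j, j ≠ k → j ≠ l → f j = 0) → ∑ j, f j = f k + f l := by
    intro f hf
    rw [← Finset.sum_pair hkl]
    symm
    refine Finset.sum_subset (Finset.subset_univ _) fun j _ hj => ?_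
    rw [Finset.mem_insert, Finset.mem_singleton, not_or] at hj
    exact hf j hj.1 hj.2
  have h1 := matrix_order U ρ hρ hR hU τ σ hσ hx m hm (Pi.single i 1) d (fun j => by
    by_cases hj : j = i
    · subst hj; simp
    · simp [hj])
  have e1 : ∑ j, ∑ k', (Pi.single i 1 : ι → ℝ) j * d k' * m j k' =
      (m i k : ℝ) ^ 2 + (m i l : ℝ) ^ 2 := by
    rw [Finset.sum_eq_single i (fun j _ hj => by simp [hj]) (fun h => absurd (Finset.mem_univ _) h),
      hsum _ fun j h1 h2 => by rw [hd0 j h1 h2]; ring]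
    rw [hdk, hdl, Pi.single_eq_same]
    ring
  have e2 : ∑ j, ((Pi.single i 1 : ι → ℝ) j) ^ 2 = 1 := by
    rw [Finset.sum_eq_single i (fun j _ hj => by simp [hj]) (fun h => absurd (Finset.mem_univ _) h)]
    simp
  have e3 : ∑ k', ∑ l', d k' * d l' * gr U ρ hρ τ k' l' = (m i k : ℝ) ^ 2 + (m i l : ℝ) ^ 2 := by
    rw [hsum _ fun j h1 h2 => by rw [hd0 j h1 h2]; simp, hsum _ fun j h1 h2 => by
      rw [hd0 j h1 h2]; ring, hsum _ fun j h1 h2 => by rw [hd0 j h1 h2]; ring, g1, g2, a4, b4,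
      hdk, hdl]
    ring
  rw [e1, e2, e3] at h1
  have a3' : (m i k : ℝ) ^ 2 = 1 := by exact_mod_cast a3
  have b3' : (m i l : ℝ) ^ 2 = 1 := by exact_mod_cast b3
  rw [a3', b3'] at h1
  norm_num at h1

include hρ hR hU hσ hx hm in
/-- columns -/
theorem col_unique {i j : ι} (hij : i ≠ j) {k : κ} (hk : (ρ k).IsIrreducible) :
    m i k * m j k ≤ 0 := by
  classical
  by_contra h
  push Not at h
  have hi : m i k ≠ 0 := fun h' => by rw [h', zero_mul] at h; exact lt_irrefl _ h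
  have hj : m j k ≠ 0 := fun h' => by rw [h', mul_zero] at h; exact lt_irrefl _ h
  obtain ⟨a1, a2, a3, a4⟩ := exceptional U ρ hρ hR hU τ σ hσ hx m hm hk hi
  obtain ⟨b1, b2, b3, b4⟩ := exceptional U ρ hρ hR hU τ σ hσ hx m hm hk hj
  set c : ι → ℝ := fun j' => if j' = i then 1 else if j' = j then 1 else 0 with hc
  have hci : c i = 1 := by rw [hc]; simp
  have hcj : c j = 1 := by rw [hc]; simp
  have hc0 : ∀ j', j' ≠ i → j' ≠ j → c j' = 0 := fun j' h1 h2 => by rw [hc]; simp [h1, h2]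
  have hsum : ∀ f : ι → ℝ, (∀ j', j' ≠ i → j' ≠ j → f j' = 0) → ∑ j', f j' = f i + f j := by
    intro f hf
    rw [← Finset.sum_pair hij]
    symm
    refine Finset.sum_subset (Finset.subset_univ _) fun j' _ hj' => ?_
    rw [Finset.mem_insert, Finset.mem_singleton, not_or] at hj'
    exact hf j' hj'.1 hj'.2
  have h1 := matrix_order U ρ hρ hR hU τ σ hσ hx m hm c (Pi.single k 1) (fun j' => by
    rw [hc]
    simp only
    split_ifs <;> norm_num)
  have e1 : ∑ j', ∑ k', c j' * (Pi.single k 1 : κ → ℝ) k' * m j' k' =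
      (m i k : ℝ) + (m j k : ℝ) := by
    rw [hsum _ fun j' h1 h2 => by rw [hc0 j' h1 h2]; simp]
    rw [Finset.sum_eq_single k (fun j _ hj => by simp [hj]) (fun h => absurd (Finset.mem_univ _) h),
      Finset.sum_eq_single k (fun j _ hj => by simp [hj]) (fun h => absurd (Finset.mem_univ _) h),
      hci, hcj, Pi.single_eq_same]
    ring
  have e2 : ∑ j', (c j') ^ 2 = 2 := by
    rw [hsum _ fun j' h1 h2 => by rw [hc0 j' h1 h2]; norm_num, hci, hcj]
    norm_num
  have e3 : ∑ k', ∑ l', (Pi.single k 1 : κ → ℝ) k' * (Pi.single k 1 : κ → ℝ) l' *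
      gr U ρ hρ τ k' l' = 1 := by
    rw [Finset.sum_eq_single k (fun j _ hj => by simp [hj]) (fun h => absurd (Finset.mem_univ _) h),
      Finset.sum_eq_single k (fun j _ hj => by simp [hj]) (fun h => absurd (Finset.mem_univ _) h),
      Pi.single_eq_same, a4]
    norm_num
  rw [e1, e2, e3] at h1
  have a3' : (m i k : ℝ) ^ 2 = 1 := by exact_mod_cast a3
  have b3' : (m j k : ℝ) ^ 2 = 1 := by exact_mod_cast b3
  have h' : (1 : ℝ) ≤ (m i k : ℝ) * m j k := by exact_mod_cast h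
  nlinarith

include hρ hR hU hσ hx hm in
/-- the degree of an exceptional representation -/
theorem degree_le {i : ι} {k : κ} (hk : (ρ k).IsIrreducible) (h : m i k ≠ 0) : n k ≤ 2 := by
  classical
  by_contra hn
  push Not at hn
  have hN : NormSys (nm F) := normSys
  obtain ⟨a1, a2, a3, a4⟩ := exceptional U ρ hρ hR hU τ σ hσ hx m hm hk h
  have a3' : (m i k : ℝ) ^ 2 = 1 := by exact_mod_cast a3
  obtain ⟨C, hC⟩ := hR.2 1
  have hn3 : (3 : ℝ) ≤ n k := by exact_mod_cast hn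
  -- the primes in the kernel
  set g : GK F ⧸ U → ℂ := fun q => if q = 1 then 1 else 0 with hg
  have hgc : ∀ a y, g (y * a * y⁻¹) = g a := by
    intro a y
    rw [hg]
    simp only
    have : y * a * y⁻¹ = 1 ↔ a = 1 := by
      constructor
      · intro h1
        have h2 : y * a = y := by
          have := mul_inv_eq_one.1 h1
          exact this
        exact mul_eq_left.1 h2
      · intro h1
        rw [h1]
        group
    simp only [this]
  have hgav : avC U g = (((Nat.card (GK F ⧸ U) : ℝ)⁻¹ : ℝ) : ℂ) := by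
    let _ : Fintype (GK F ⧸ U) := Fintype.ofFinite _
    unfold avC
    rw [finsum_eq_sum_of_fintype, hg]
    simp
  have hsplit := cheb_edge U hU g hgc _ hgav σ hσ 0
  rw [if_pos rfl] at hsplit
  have hI : Tendsto (fun ε : ℝ => (EP (nm F) ε fun v => if σ v ∈ U then (1 : ℝ) else 0) / lam ε)
      (𝓝[>] 0) (𝓝 ((Nat.card (GK F ⧸ U) : ℝ)⁻¹)) := by
    refine hsplit.congr fun ε => ?_
    congr 2
    funext v
    have h1 : ((nm F v : ℕ) : ℂ) ^ (-(((0 : ℝ) : ℂ) * I)) = 1 := by simp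
    rw [h1, mul_one, hg]
    simp only
    by_cases h2 : σ v ∈ U
    · rw [if_pos ((QuotientGroup.eq_one_iff _).2 h2), if_pos h2, Complex.one_re]
    · rw [if_neg (fun h3 => h2 ((QuotientGroup.eq_one_iff _).1 h3)), if_neg h2, Complex.zero_re]
  have hX := (hx i k).add (hm i k)
  rw [zero_add] at hX
  have hX' : Tendsto (fun ε : ℝ => (EP (nm F) ε fun v => R i v * RR (ρ k) (τ k) σ v) / lam ε)
      (𝓝[>] 0) (𝓝 (-(m i k : ℝ))) := hX.congr fun ε => by ring
  have hG := gr_lim U ρ hρ hU τ σ hσ k k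
  rw [a4] at hG
  have hL : Tendsto (fun ε : ℝ => Real.log (1 / ε) / lam ε + |C| / lam ε +
      2 * (m i k : ℝ) * ((EP (nm F) ε fun v => R i v * RR (ρ k) (τ k) σ v) / lam ε) +
      (EP (nm F) ε fun v => RR (ρ k) (τ k) σ v * RR (ρ k) (τ k) σ v) / lam ε) (𝓝[>] 0)
      (𝓝 (1 + 0 + 2 * (m i k : ℝ) * (-(m i k : ℝ)) + 1)) :=
    ((log_ratio.add (tendsto_const_nhds.div_atTop lam_tendsto)).add (hX'.const_mul _)).add hG
  have e0 : (1 : ℝ) + 0 + 2 * (m i k : ℝ) * (-(m i k : ℝ)) + 1 = 0 := by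
    have : (1 : ℝ) + 0 + 2 * (m i k : ℝ) * (-(m i k : ℝ)) + 1 = 2 - 2 * (m i k : ℝ) ^ 2 := by ring
    rw [this, a3']
    norm_num
  rw [e0] at hL
  have hpos : (0 : ℝ) < Nat.card (GK F ⧸ U) := by exact_mod_cast Nat.card_pos
  have hle : (Nat.card (GK F ⧸ U) : ℝ)⁻¹ ≤ 0 := by
    refine le_of_tendsto_of_tendsto hI hL ?_
    filter_upwards [hC, lam_tendsto.eventually_gt_atTop 0, self_mem_nhdsWithin] with ε h1 h2 h3
    have hε : (0 : ℝ) < ε := h3
    have h4 := h1 (Pi.single i 1) (fun j => by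
      by_cases hj : j = i
      · subst hj; simp
      · simp [hj])
    have e1 : ∀ v, ∑ j, (Pi.single i 1 : ι → ℝ) j * R j v = R i v := by
      intro v
      rw [Finset.sum_eq_single i (fun j _ hj => by simp [hj])
        (fun h => absurd (Finset.mem_univ _) h)]
      simp
    have e2 : ∑ j, ((Pi.single i 1 : ι → ℝ) j) ^ 2 = 1 := by
      rw [Finset.sum_eq_single i (fun j _ hj => by simp [hj])
        (fun h => absurd (Finset.mem_univ _) h)]
      simp
    simp only [e1, e2, one_mul] at h4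
    have hRb := hR.1 i
    have hn' : ∀ v, |RR (ρ k) (τ k) σ v| ≤ n k := fun v => abs_RR_le U (ρ k) (hρ k) _ _ _
    have hab : |(m i k : ℝ)| = 1 := by
      rw [← sq_abs] at a3'
      nlinarith [abs_nonneg (m i k : ℝ)]
    have hpt : ∀ v, (if σ v ∈ U then (1 : ℝ) else 0) ≤
        R i v ^ 2 + ((2 * (m i k : ℝ)) * (R i v * RR (ρ k) (τ k) σ v) +
          RR (ρ k) (τ k) σ v * RR (ρ k) (τ k) σ v) := by
      intro v
      have e3 : R i v ^ 2 + ((2 * (m i k : ℝ)) * (R i v * RR (ρ k) (τ k) σ v) +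
          RR (ρ k) (τ k) σ v * RR (ρ k) (τ k) σ v) = (R i v + m i k * RR (ρ k) (τ k) σ v) ^ 2 := by
        have : (R i v + m i k * RR (ρ k) (τ k) σ v) ^ 2 = R i v ^ 2 +
          ((2 * (m i k : ℝ)) * (R i v * RR (ρ k) (τ k) σ v) +
            (m i k : ℝ) ^ 2 * (RR (ρ k) (τ k) σ v * RR (ρ k) (τ k) σ v)) := by ring
        rw [this, a3', one_mul]
      rw [e3]
      split_ifs with h5
      · have h6 : RR (ρ k) (τ k) σ v = n k := by
          unfold RR
          rw [a1]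
          have h7 : (ρ k).character (σ v)⁻¹ = n k := by
            unfold Representation.character
            rw [hρ k _ (U.inv_mem h5), LinearMap.trace_one, Module.finrank_fin_fun]
          have h8 : zz 0 v = 1 := by
            unfold zz
            simp
          rw [h7, h8, mul_one, Complex.natCast_re]
        have h9 : 1 ≤ |R i v + m i k * RR (ρ k) (τ k) σ v| := by
          have h10 : |m i k * RR (ρ k) (τ k) σ v| = n k := by
            rw [abs_mul, hab, one_mul, h6, abs_of_nonneg (Nat.cast_nonneg _)]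
          have h11 : |m i k * RR (ρ k) (τ k) σ v| ≤
              |R i v + m i k * RR (ρ k) (τ k) σ v| + |R i v| := by
            have : (m i k : ℝ) * RR (ρ k) (τ k) σ v =
                (R i v + m i k * RR (ρ k) (τ k) σ v) - R i v := by ring
            calc |m i k * RR (ρ k) (τ k) σ v| =
                |(R i v + m i k * RR (ρ k) (τ k) σ v) - R i v| := by rw [← this]
              _ ≤ _ := abs_sub _ _
          have h12 := hRb v
          linarith
        calc (1 : ℝ) = 1 ^ 2 := by norm_num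
          _ ≤ |R i v + m i k * RR (ρ k) (τ k) σ v| ^ 2 := pow_le_pow_left₀ zero_le_one h9 2
          _ = _ := sq_abs _
      · exact sq_nonneg _
    have b1 : ∀ v, |R i v ^ 2| ≤ 4 := fun v => by
      rw [abs_pow]
      calc |R i v| ^ 2 ≤ 2 ^ 2 := pow_le_pow_left₀ (abs_nonneg _) (hRb v) 2
        _ = 4 := by norm_num
    have b2 : ∀ v, |(2 * (m i k : ℝ)) * (R i v * RR (ρ k) (τ k) σ v)| ≤ 2 * (2 * n k) := fun v => by
      rw [abs_mul, abs_mul, abs_mul, hab]
      have := mul_le_mul (hRb v) (hn' v) (abs_nonneg _) (by norm_num : (0 : ℝ) ≤ 2)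
      have h2 : |(2 : ℝ)| = 2 := abs_of_pos (by norm_num)
      rw [h2]
      linarith
    have b3 : ∀ v, |RR (ρ k) (τ k) σ v * RR (ρ k) (τ k) σ v| ≤ (n k : ℝ) * n k := fun v => by
      rw [abs_mul]
      exact mul_le_mul (hn' v) (hn' v) (abs_nonneg _) (Nat.cast_nonneg _)
    have h5 := EP_mono (B := 1) (B' := 4 + (2 * (2 * (n k : ℝ)) + (n k : ℝ) * n k))
      (φ := fun v => if σ v ∈ U then (1 : ℝ) else 0)
      (ψ := fun v => R i v ^ 2 + ((2 * (m i k : ℝ)) * (R i v * RR (ρ k) (τ k) σ v) +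
          RR (ρ k) (τ k) σ v * RR (ρ k) (τ k) σ v)) (fun v => by split_ifs <;> simp)
      (fun v => (abs_add_le _ _).trans (add_le_add (b1 v)
        ((abs_add_le _ _).trans (add_le_add (b2 v) (b3 v))))) hpt hε
    rw [EP_add hN hε b1 (fun v => (abs_add_le _ _).trans (add_le_add (b2 v) (b3 v))),
      EP_add hN hε b2 b3, EP_const_mul] at h5
    have h6 : (EP (nm F) ε fun v => R i v ^ 2) ≤ Real.log (1 / ε) + |C| := by
      have := le_abs_self C
      linarith
    rw [div_le_iff₀ h2]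
    have e4 : (Real.log (1 / ε) / lam ε + |C| / lam ε +
      2 * (m i k : ℝ) * ((EP (nm F) ε fun v => R i v * RR (ρ k) (τ k) σ v) / lam ε) +
      (EP (nm F) ε fun v => RR (ρ k) (τ k) σ v * RR (ρ k) (τ k) σ v) / lam ε) * lam ε =
      Real.log (1 / ε) + |C| + (2 * (m i k : ℝ) * (EP (nm F) ε fun v => R i v *
        RR (ρ k) (τ k) σ v) + (EP (nm F) ε fun v => RR (ρ k) (τ k) σ v *
        RR (ρ k) (τ k) σ v)) := by
      field_simp
      ring
    rw [e4]
    linarith
  have := inv_pos.2 hpos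
  linarith

end

end Pool.Agent.R433.AT
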